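import Mathlib

set_option autoImplicit false

namespace Pool.Agent.Results.MP_63f2bb_co.Heawood

open Finset

/-- `U` is invariant under the coordinate-permuting action `(σ x) (σ i) = x i` of `S`. -/
def Invariant {V : Type} {G : SimpleGraph V} (S : Subgroup (G ≃g G)) (U : Submodule ℝ (V → ℝ)) : Prop :=
  ∀ σ ∈ S, ∀ x ∈ U, (fun i => x (σ.symm i)) ∈ U

abbrev V := ZMod 7 × Bool

def adj (u v : V) : Bool :=
  (u.2 && !v.2 && (v.1 - u.1 == 1 || v.1 - u.1 == 2 || v.1 - u.1 == 4)) ||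
  (v.2 && !u.2 && (u.1 - v.1 == 1 || u.1 - v.1 == 2 || u.1 - v.1 == 4))

def G : SimpleGraph V where
  Adj u v := adj u v = true
  symm := ⟨by decide +kernel⟩
  loopless := ⟨by decide +kernel⟩

instance : DecidableRel G.Adj := fun u v => inferInstanceAs (Decidable (adj u v = true))

def f (a b : ZMod 7) (u : V) : V := (a * u.1 + b, if a = 1 ∨ a = 2 ∨ a = 4 then u.2 else !u.2)

theorem f_inj : ∀ a : ZMod 7, a ≠ 0 → ∀ b, ∀ u v, f a b u = f a b v → u = v := by decide +kernel

theorem f_adj : ∀ a : ZMod 7, a ≠ 0 → ∀ b, ∀ u v, G.Adj (f a b u) (f a b v) ↔ G.Adj u v := by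
  decide +kernel

theorem f_fst : ∀ a : ZMod 7, a ≠ 0 → ∀ b, ∀ u v, (f a b u).1 = (f a b v).1 ↔ u.1 = v.1 := by
  decide +kernel

theorem f_tr : ∀ u v, G.Adj u v → ∀ u' v', G.Adj u' v' →
    ∃ a : ZMod 7, a ≠ 0 ∧ ∃ b, f a b u = u' ∧ f a b v = v' := by decide +kernel

noncomputable def τ (a : ZMod 7) (h : a ≠ 0) (b : ZMod 7) : G ≃g G :=
  ⟨Equiv.ofBijective (f a b) (Finite.injective_iff_bijective.mp (f_inj a h b)), f_adj a h b _ _⟩

def S : Subgroup (G ≃g G) where
  carrier := {σ | ∀ u v, (σ u).1 = (σ v).1 ↔ u.1 = v.1}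
  mul_mem' := fun {σ ρ} a b u v => (a _ _).trans (b u v)
  one_mem' := fun _ _ => Iff.rfl
  inv_mem' := fun {σ} a u v => by simpa using (a (σ⁻¹ u) (σ⁻¹ v)).symm

def W : Submodule ℝ (V → ℝ) where
  carrier := {x | (∀ u v, u.1 = v.1 → x u = x v) ∧ ∑ u, x u = 0}
  add_mem' := fun {x y} a b => ⟨fun u v h => by simp [a.1 u v h, b.1 u v h], by
    simp [sum_add_distrib, a.2, b.2]⟩
  zero_mem' := ⟨fun _ _ _ => rfl, by simp⟩
  smul_mem' := fun c x a => ⟨fun u v h => by simp [a.1 u v h], by simp [← mul_sum, a.2]⟩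

theorem sum0 {x : V → ℝ} (h : x ∈ W) : ∑ i, x (i, true) = 0 := by
  have := h.2
  rw [Fintype.sum_prod_type] at this
  simp only [Fintype.sum_bool, fun i => h.1 (i, false) (i, true) rfl, sum_add_distrib] at this
  linarith

instance : Fact (Nat.Prime 7) := ⟨by norm_num⟩

def x₀ : V → ℝ := fun u => if u.1 = 0 then 6 else -1

theorem x₀_mem : x₀ ∈ W := by
  refine ⟨fun u v h => by simp only [x₀, h], ?_⟩
  have : ∀ u, x₀ u = ((if u.1 = 0 then 6 else -1 : ℤ) : ℝ) := fun u => by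
    simp only [x₀]; split_ifs <;> simp
  simp only [this, ← Int.cast_sum, Int.cast_eq_zero]
  decide +kernel

theorem result : ∃ (V : Type) (_ : Fintype V) (_ : DecidableEq V) (G : SimpleGraph V)
    (_ : DecidableRel G.Adj) (S : Subgroup (G ≃g G)) (W : Submodule ℝ (V → ℝ)), G.Connected ∧
    (∀ u v u' v', G.Adj u v → G.Adj u' v' → ∃ σ ∈ S, σ u = u' ∧ σ v = v') ∧
    (W ≠ ⊥ ∧ Invariant S W ∧ ∀ U ≤ W, Invariant S U → U = ⊥ ∨ U = W) ∧
    ¬ ∃ c : ℝ, ∀ x ∈ W, (G.adjMatrix ℝ).mulVec x = c • x := by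
  refine ⟨V, inferInstance, inferInstance, G, inferInstance, S, W, by decide +kernel,
    fun u v u' v' a b => ?_, ⟨fun h => ?_, fun σ hσ x hx => ⟨fun u v h => hx.1 _ _ ?_, ?_⟩,
    fun U hU hI => ?_⟩, fun ⟨c, h⟩ => ?_⟩
  · obtain ⟨a, ha, b, h⟩ := f_tr u v a u' v' b
    exact ⟨τ a ha b, f_fst a ha b, h⟩
  · have := congrFun ((Submodule.eq_bot_iff _).mp h _ x₀_mem) (0, true)
    simp [x₀] at this
  · exact (S.inv_mem hσ u v).mpr h
  · exact (Equiv.sum_comp σ.symm.toEquiv x).trans hx.2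
  · refine or_iff_not_imp_left.mpr fun h => le_antisymm hU fun w hw => ?_
    obtain ⟨x, hx, x0⟩ := (Submodule.ne_bot_iff _).mp h
    obtain ⟨⟨i₀, s⟩, hi⟩ := Function.ne_iff.mp x0
    have hW := hU hx
    have g0 : x (i₀, true) ≠ 0 := by rwa [hW.1 (i₀, true) (i₀, s) rfl]
    have m : ∀ a : ZMod 7, a ≠ 0 → ∀ b, (fun u => x (f a b u)) ∈ U := fun a ha b =>
      hI _ (S.inv_mem (x := τ a ha b) (f_fst a ha b)) x hx
    have y : ∀ b (u : V), ∑ a ∈ univ.erase (0 : ZMod 7), x (f a (i₀ - a * b) u) =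
        (if b = u.1 then 7 * x (i₀, true) else 0) - x (i₀, true) := fun b u => by
      have e : ∀ a, x (f a (i₀ - a * b) u) = x (a * (u.1 - b) + i₀, true) := fun a =>
        hW.1 _ _ (by simp only [f]; ring)
      simp only [e]
      split_ifs with hb
      · simp [hb]; ring
      · have hb' : u.1 - b ≠ 0 := sub_ne_zero.mpr (Ne.symm hb)
        have := Equiv.sum_comp ((Equiv.mulRight₀ _ hb').trans (Equiv.addRight i₀)) fun i => x (i, true)
        rw [sum0 hW, ← add_sum_erase _ _ (mem_univ 0)] at this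
        simp only [Equiv.trans_apply, Equiv.mulRight₀_apply, Equiv.coe_addRight, zero_mul,
          zero_add] at this
        linarith
    have : w = ∑ b : ZMod 7, (w (b, true) / (7 * x (i₀, true))) •
        ∑ a ∈ univ.erase (0 : ZMod 7), fun u => x (f a (i₀ - a * b) u) := by
      ext u
      simp only [Finset.sum_apply, Pi.smul_apply, y, smul_eq_mul, mul_sub, sum_sub_distrib, mul_ite,
        mul_zero, sum_ite_eq', mem_univ, if_true, ← sum_mul, ← sum_div, sum0 hw]
      rw [hw.1 u (u.1, true) rfl]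
      field_simp
      simp
    rw [this]
    exact U.sum_mem fun b _ => U.smul_mem _ (U.sum_mem fun a ha => m a (ne_of_mem_erase ha) _)
  · have a := congrFun (h _ x₀_mem) (0, true)
    have b := congrFun (h _ x₀_mem) (1, true)
    rw [SimpleGraph.adjMatrix_mulVec_apply] at a b
    rw [show G.neighborFinset (0, true) = {(1, false), (2, false), (4, false)} by decide +kernel,
      sum_insert (by decide), sum_pair (by decide)] at a
    rw [show G.neighborFinset (1, true) = {(2, false), (3, false), (5, false)} by decide +kernel,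
      sum_insert (by decide), sum_pair (by decide)] at b
    simp only [x₀, Pi.smul_apply, smul_eq_mul, if_true, show (1 : ZMod 7) ≠ 0 by decide,
      show (2 : ZMod 7) ≠ 0 by decide, show (3 : ZMod 7) ≠ 0 by decide,
      show (4 : ZMod 7) ≠ 0 by decide, show (5 : ZMod 7) ≠ 0 by decide, if_false] at a b
    linarith

end Pool.Agent.Results.MP_63f2bb_co.Heawood
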